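import Pool.Agent.Helper51.HI.Main3

set_option autoImplicit false

/-!
Fields whose absolute Galois group is normally generated, up to a finite quotient which is a
`p`-group, by finitely many local subgroups.
-/

namespace Pool.Agent.Helper92.CRISP.Local

open Polynomial

/-- Let `L` be the intersection of finitely many algebraic extensions `F i` of `K` in an algebraic
closure `Ω` of `K`, each of them real closed or Henselian with respect to a nontrivial valuation.
Suppose that the largest Galois extension `N` of `K` inside `L` has finite degree `p ^ k` for a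
prime `p`, and that for every `B` the following holds for all separable irreducible polynomials
`q` over `N` of sufficiently large degree with at most `B` roots outside `L`: the Galois group of
`q` does not contain the alternating group. Then `K` is ample: a plane curve `f = 0` over `K` with
a `K`-rational simple point has infinitely many `K`-rational points. -/
theorem general {K Ω : Type*} [Field K] [Field Ω] [Algebra K Ω] [IsAlgClosure K Ω]
    {ι : Type*} [Finite ι] [Nonempty ι] (F : ι → IntermediateField K Ω)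
    (hF : ∀ i, IsRealClosed (F i) ∨
      ∃ 𝒪 : ValuationSubring (F i), 𝒪 ≠ ⊤ ∧ HenselianLocalRing 𝒪)
    (N : IntermediateField K Ω) [FiniteDimensional K N] [IsGalois K N] (hN : N ≤ ⨅ i, F i)
    (hmax : ∀ E : IntermediateField K Ω, FiniteDimensional K E → IsGalois K E →
      E ≤ ⨅ i, F i → E ≤ N)
    (p k : ℕ) (hp : p.Prime) (hpk : Module.finrank K N = p ^ k)
    (hA : ∀ B : ℕ, ∃ n₀ : ℕ, ∀ q : N[X], Irreducible q → q.Separable → n₀ ≤ q.natDegree →
      (q.rootSet Ω \ ((⨅ i, F i : IntermediateField K Ω) : Set Ω)).ncard ≤ B →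
      ∀ [DecidableEq (q.rootSet Ω)] [Fintype (q.rootSet Ω)],
        ¬ alternatingGroup (q.rootSet Ω) ≤
          (MulAction.toPermHom (Ω ≃ₐ[N] Ω) (q.rootSet Ω)).range)
    (f : K[X][X]) (a b : K) (h0 : f.evalEval a b = 0) (h1 : (derivative f).evalEval a b ≠ 0) :
    {x : K | ∃ y : K, f.evalEval x y = 0}.Infinite := by
  have : IsAlgClosed Ω := IsAlgClosure.isAlgClosed K
  have : Algebra.IsAlgebraic K Ω := IsAlgClosure.isAlgebraic
  exact Pool.Agent.Helper51.HI.infinite_of_maxGalois F hF N hN p k hp hpk hmax hA f a b h0 h1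

theorem ncard_rootSet {N Ω : Type*} [Field N] [Field Ω] [Algebra N Ω] [IsAlgClosed Ω]
    (q : N[X]) (hsep : q.Separable) : (q.rootSet Ω).ncard = q.natDegree := by
  rw [← Nat.card_coe_set_eq, Nat.card_eq_fintype_card]
  exact card_rootSet_eq_natDegree hsep (IsAlgClosed.splits _)

/-- The case `L = K`: the intersection of finitely many real closed or Henselian fields is
ample. -/
theorem of_iInf_eq_bot {K Ω : Type*} [Field K] [Field Ω] [Algebra K Ω] [IsAlgClosure K Ω]
    {ι : Type*} [Finite ι] [Nonempty ι] (F : ι → IntermediateField K Ω)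
    (hF : ∀ i, IsRealClosed (F i) ∨
      ∃ 𝒪 : ValuationSubring (F i), 𝒪 ≠ ⊤ ∧ HenselianLocalRing 𝒪)
    (hK : ⨅ i, F i = ⊥)
    (f : K[X][X]) (a b : K) (h0 : f.evalEval a b = 0) (h1 : (derivative f).evalEval a b ≠ 0) :
    {x : K | ∃ y : K, f.evalEval x y = 0}.Infinite := by
  have : IsAlgClosed Ω := IsAlgClosure.isAlgClosed K
  refine general F hF ⊥ bot_le (fun E _ _ h => h.trans hK.le) 2 0 Nat.prime_two
    (by rw [IntermediateField.finrank_bot, pow_zero]) (fun B => ⟨B + 2, ?_⟩) f a b h0 h1
  intro q hq hsep hdeg hB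
  exfalso
  have h2 : (q.rootSet Ω).ncard = q.natDegree := ncard_rootSet q hsep
  have h3 : q.rootSet Ω \ ((⨅ i, F i : IntermediateField K Ω) : Set Ω) = q.rootSet Ω := by
    rw [sdiff_eq_left, Set.disjoint_left]
    intro x hx hxF
    rw [hK] at hxF
    have h4 : q.IsRoot (⟨x, hxF⟩ : (⊥ : IntermediateField K Ω)) := by
      rw [IsRoot.def]
      apply (algebraMap (⊥ : IntermediateField K Ω) Ω).injective
      rw [map_zero, ← aeval_algebraMap_apply_eq_algebraMap_eval]
      exact aeval_eq_zero_of_mem_rootSet hx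
    have h5 : q.natDegree = 1 :=
      natDegree_eq_of_degree_eq_some (degree_eq_one_of_irreducible_of_root hq h4)
    omega
  rw [h3, h2] at hB
  omega

theorem not_solvable {X : Type*} [Fintype X] [DecidableEq X] (h : 5 ≤ Fintype.card X)
    {H : Subgroup (Equiv.Perm X)} (hH : alternatingGroup X ≤ H) : ¬ Group.IsSolvable H := by
  intro hs
  have h1 : Group.IsSolvable (Equiv.Perm X) :=
    Group.isSolvable_of_ker_le_range H.subtype (Equiv.Perm.sign : Equiv.Perm X →* ℤˣ) (by
      rw [H.range_subtype]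
      exact hH)
  refine Equiv.Perm.not_isSolvable X ?_ h1
  rw [Cardinal.mk_fintype]
  exact_mod_cast h

theorem range_le {N Ω : Type*} [Field N] [Field Ω] [Algebra N Ω] (q : N[X])
    [Fact ((q.map (algebraMap N Ω)).Splits)] :
    (MulAction.toPermHom (Ω ≃ₐ[N] Ω) (q.rootSet Ω)).range ≤ (Gal.galActionHom q Ω).range := by
  rintro _ ⟨σ, rfl⟩
  refine ⟨Gal.restrict q Ω σ, ?_⟩
  ext x
  exact Gal.restrict_smul σ x

/-- The case of few large alternating groups. -/
theorem of_card_gal {K Ω : Type*} [Field K] [Field Ω] [Algebra K Ω] [IsAlgClosure K Ω]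
    {ι : Type*} [Finite ι] [Nonempty ι] (F : ι → IntermediateField K Ω)
    (hF : ∀ i, IsRealClosed (F i) ∨
      ∃ 𝒪 : ValuationSubring (F i), 𝒪 ≠ ⊤ ∧ HenselianLocalRing 𝒪)
    (N : IntermediateField K Ω) [FiniteDimensional K N] [IsGalois K N] (hN : N ≤ ⨅ i, F i)
    (hmax : ∀ E : IntermediateField K Ω, FiniteDimensional K E → IsGalois K E →
      E ≤ ⨅ i, F i → E ≤ N)
    (p k : ℕ) (hp : p.Prime) (hpk : Module.finrank K N = p ^ k)
    (hG : ∃ n₀ : ℕ, ∀ q : N[X], Irreducible q → q.Separable → n₀ ≤ q.natDegree →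
      2 * Nat.card q.Gal < q.natDegree.factorial)
    (f : K[X][X]) (a b : K) (h0 : f.evalEval a b = 0) (h1 : (derivative f).evalEval a b ≠ 0) :
    {x : K | ∃ y : K, f.evalEval x y = 0}.Infinite := by
  have : IsAlgClosed Ω := IsAlgClosure.isAlgClosed K
  obtain ⟨n₀, hG⟩ := hG
  refine general F hF N hN hmax p k hp hpk (fun B => ⟨max n₀ 2, ?_⟩) f a b h0 h1
  intro q hirr hsep hdeg _ _ _ hle
  have hfact : Fact ((q.map (algebraMap N Ω)).Splits) := ⟨IsAlgClosed.splits _⟩
  have h3 : Fintype.card (q.rootSet Ω) = q.natDegree := by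
    rw [← Nat.card_eq_fintype_card, Nat.card_coe_set_eq]
    exact ncard_rootSet q hsep
  have : Nontrivial (q.rootSet Ω) := Fintype.one_lt_card_iff_nontrivial.1 (by
    rw [h3]; exact lt_of_lt_of_le one_lt_two ((le_max_right n₀ 2).trans hdeg))
  have h4 : 2 * Fintype.card (alternatingGroup (q.rootSet Ω)) = q.natDegree.factorial := by
    rw [two_mul_card_alternatingGroup, Fintype.card_perm, h3]
  have h5 : Nat.card (alternatingGroup (q.rootSet Ω)) ≤ Nat.card (Gal.galActionHom q Ω).range :=
    Subgroup.card_le_of_le (hle.trans (range_le q))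
  have h6 : Nat.card (Gal.galActionHom q Ω).range ≤ Nat.card q.Gal :=
    Nat.card_le_card_of_surjective _ (MonoidHom.rangeRestrict_surjective (Gal.galActionHom q Ω))
  have h7 := hG q hirr hsep ((le_max_left n₀ 2).trans hdeg)
  rw [Nat.card_eq_fintype_card] at h5
  omega

/-- The case of prosolvable groups. -/
theorem of_solvable {K Ω : Type*} [Field K] [Field Ω] [Algebra K Ω] [IsAlgClosure K Ω]
    {ι : Type*} [Finite ι] [Nonempty ι] (F : ι → IntermediateField K Ω)
    (hF : ∀ i, IsRealClosed (F i) ∨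
      ∃ 𝒪 : ValuationSubring (F i), 𝒪 ≠ ⊤ ∧ HenselianLocalRing 𝒪)
    (N : IntermediateField K Ω) [FiniteDimensional K N] [IsGalois K N] (hN : N ≤ ⨅ i, F i)
    (hmax : ∀ E : IntermediateField K Ω, FiniteDimensional K E → IsGalois K E →
      E ≤ ⨅ i, F i → E ≤ N)
    (p k : ℕ) (hp : p.Prime) (hpk : Module.finrank K N = p ^ k)
    (hsol : ∀ q : N[X], q.Separable → Group.IsSolvable q.Gal)
    (f : K[X][X]) (a b : K) (h0 : f.evalEval a b = 0) (h1 : (derivative f).evalEval a b ≠ 0) :
    {x : K | ∃ y : K, f.evalEval x y = 0}.Infinite := by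
  have : IsAlgClosed Ω := IsAlgClosure.isAlgClosed K
  refine general F hF N hN hmax p k hp hpk (fun B => ⟨5, ?_⟩) f a b h0 h1
  intro q _ hsep hdeg _ _ _ hle
  have hfact : Fact ((q.map (algebraMap N Ω)).Splits) := ⟨IsAlgClosed.splits _⟩
  have := hsol q hsep
  have h4 : Group.IsSolvable (Gal.galActionHom q Ω).range :=
    Group.isSolvable_of_surjective (MonoidHom.rangeRestrict_surjective (Gal.galActionHom q Ω))
  refine not_solvable (X := q.rootSet Ω) ?_ (hle.trans (range_le q)) h4
  have h3 : Fintype.card (q.rootSet Ω) = q.natDegree := by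
    rw [← Nat.card_eq_fintype_card, Nat.card_coe_set_eq]
    exact ncard_rootSet q hsep
  rw [h3]
  exact hdeg

end Pool.Agent.Helper92.CRISP.Local
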